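import Pool.Agent.H56.PK.WKC
import Pool.Agent.H68.PK.KNS
import Pool.Agent.H87.PK.POL
import Pool.Agent.H87.PK.ORD
import Pool.Agent.H87.PK.TNG
import Pool.Agent.H81.PK.SLW
import Pool.Agent.H67.PK.FUB
import Pool.Agent.H42.PK.RNK
import Pool.Agent.H65k.Final

/-!
# Kneser's weighted inequality for strong contractions: the comparison of two radii
-/

set_option autoImplicit false

open MeasureTheory Set Metric Real
open scoped ENNReal

namespace Pool.Agent.H34.KN

open Pool.Agent.H97.PK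

theorem aFUB : T_FUB := Pool.Agent.H67.PK.pf_fub

theorem aWKC : T_WKC := Pool.Agent.H56.PK.pf_wkc
  (Pool.Agent.H68.PK.pf_kns Pool.Agent.H87.PK.pf_pol Pool.Agent.H87.PK.pf_ord)

theorem aSLW : T_SLW := Pool.Agent.H81.PK.pf_slw aFUB

/-- the volume of the unit ball of `R^k` -/
noncomputable def om (k : ℕ) : ℝ := (volume (ball (0 : E k) 1)).toReal

theorem om_pos (k : ℕ) : 0 < om k :=
  ENNReal.toReal_pos (measure_ball_pos _ _ one_pos).ne' measure_ball_lt_top.ne

theorem vol_cb (k : ℕ) (s : ℝ) (hs : 0 ≤ s) :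
    (volume (closedBall (0 : E k) s)).toReal = s ^ k * om k := by
  rw [Measure.addHaar_closedBall _ _ hs, finrank_euclideanSpace_fin, ENNReal.toReal_mul,
    ENNReal.toReal_ofReal (pow_nonneg hs k)]
  rfl

theorem ww_one (d : ℕ) (s : ℝ) : WW (fun _ : Fin 1 => (1 : ℝ)) (fun _ => (0 : E d)) s =
    (volume (closedBall (0 : E d) s)).toReal := by
  unfold WW
  rw [Fin.sum_univ_one, one_mul]
  congr 2
  ext x
  change 0 + 1 ≤ (Finset.univ.filter (fun _ : Fin 1 => dist x (0 : E d) ≤ s)).card ↔ dist x 0 ≤ s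
  constructor
  · intro h
    obtain ⟨i, hi⟩ := Finset.card_pos.1 (lt_of_lt_of_le (Nat.succ_pos _) h)
    exact (Finset.mem_filter.1 hi).2
  · intro h
    exact Finset.card_pos.2 ⟨0, Finset.mem_filter.2 ⟨Finset.mem_univ _, h⟩⟩

theorem emb_zero (d j : ℕ) : emb j (0 : E d) = 0 := by
  rw [← Pool.Agent.H42.PK.embL_apply, map_zero]

/-- the integral of `(R^2 - |z|^2)^(d/2)` over the ball of `R^j` -/
theorem int_pow (d j : ℕ) (hd : 1 ≤ d) (R : ℝ) (hR : 0 ≤ R) :
    (∫ z in closedBall (0 : E j) R, √(R ^ 2 - ‖z‖ ^ 2) ^ d) * om d = R ^ (d + j) * om (d + j) := by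
  have h := (aSLW d j 1 (fun _ => (1 : ℝ)) (fun _ => (0 : E d)) R hd hR).2
  simp only [emb_zero, ww_one] at h
  rw [vol_cb (d + j) R hR] at h
  rw [h, ← integral_mul_const]
  refine integral_congr_ae (Filter.Eventually.of_forall fun z => ?_)
  exact (vol_cb d _ (Real.sqrt_nonneg _)).symm

/-- the comparison of the radii `R` for `q` and `r` for `p` -/
theorem core (d j n : ℕ) (hd : 1 ≤ d) (p q : Fin n → E d) (hpq : Contr p q)
    (hrank : Module.finrank ℝ (vectorSpan ℝ (range fun i => (emb j (p i), emb j (q i)))) ≤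
      d + j + 2) (r R : ℝ) (hr : 0 < r) (hR : 0 < R)
    (hom : om d * om j * r ^ d ≤ om (d + j) * R ^ d) (τ : Fin n → ℝ) (hτ : Antitone τ)
    (hτ0 : ∀ k, 0 ≤ τ k) : WW τ q R * r ^ d ≤ WW τ p r * R ^ d := by
  have hA : WW τ (fun i => emb j (q i)) R ≤ WW τ (fun i => emb j (p i)) R := by
    have hc : Contr (fun i => emb j (p i)) (fun i => emb j (q i)) := by
      intro i k
      rw [Pool.Agent.H42.PK.dist_emb, Pool.Agent.H42.PK.dist_emb]
      exact hpq i k
    exact Pool.Agent.H65k.kneser_main (d + j) n (fun i => emb j (p i)) (fun i => emb j (q i))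
      (fun _ => R) (fun _ => hR) hc (Or.inr (Or.inr (Or.inl hrank))) τ hτ
  obtain ⟨iq, eq1⟩ := aSLW d j n τ q R hd hR.le
  obtain ⟨ip, ep1⟩ := aSLW d j n τ p R hd hR.le
  rw [eq1, ep1] at hA
  obtain ⟨q0, qm, qc⟩ := aWKC d hd n τ q hτ hτ0
  obtain ⟨p0, pm, pc⟩ := aWKC d hd n τ p hτ hτ0
  obtain ⟨ql, -⟩ := Pool.Agent.H87.PK.pf_tng d hd (WW τ q) q0 qm qc R hR
  obtain ⟨-, γ, hγ0, hγ1, pu⟩ := Pool.Agent.H87.PK.pf_tng d hd (WW τ p) p0 pm pc r hr
  have hWp : 0 ≤ WW τ p r := by rw [← p0]; exact pm 0 r le_rfl hr.le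
  have hint : IntegrableOn (fun z : E j => √(R ^ 2 - ‖z‖ ^ 2) ^ d) (closedBall 0 R) := by
    refine ContinuousOn.integrableOn_compact (isCompact_closedBall _ _) ?_
    refine Continuous.continuousOn ?_
    fun_prop
  have hint1 : IntegrableOn (fun _ : E j => (1 : ℝ)) (closedBall 0 R) := by
    refine ContinuousOn.integrableOn_compact (isCompact_closedBall _ _) ?_
    exact continuousOn_const
  set I1 : ℝ := ∫ z in closedBall (0 : E j) R, √(R ^ 2 - ‖z‖ ^ 2) ^ d with hI1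
  have hI1e : I1 * om d = R ^ (d + j) * om (d + j) := int_pow d j hd R hR.le
  have hI0 : ∫ _ in closedBall (0 : E j) R, (1 : ℝ) = R ^ j * om j := by
    rw [integral_const, smul_eq_mul, mul_one, Measure.real, Measure.restrict_apply_univ,
      vol_cb j R hR.le]
  have hod := om_pos d
  have hoj := om_pos j
  have hodj := om_pos (d + j)
  have hI1pos : 0 < I1 := by
    have : 0 < I1 * om d := by
      rw [hI1e]
      positivity
    exact (mul_pos_iff_of_pos_right hod).1 this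
  have hrd : 0 < r ^ d := pow_pos hr d
  have hRd : 0 < R ^ d := pow_pos hR d
  -- lower bound
  have hlow : WW τ q R / R ^ d * I1 ≤
      ∫ z in closedBall (0 : E j) R, WW τ q (√(R ^ 2 - ‖z‖ ^ 2)) := by
    rw [hI1, ← integral_const_mul]
    refine setIntegral_mono_on (hint.const_mul _) iq isClosed_closedBall.measurableSet ?_
    intro z _
    have h2 := ql (√(R ^ 2 - ‖z‖ ^ 2)) (Real.sqrt_nonneg _)
    have h3 : √(R ^ 2 - ‖z‖ ^ 2) ≤ R := by
      rw [Real.sqrt_le_left hR.le]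
      have := sq_nonneg ‖z‖
      linarith
    have h4 : (√(R ^ 2 - ‖z‖ ^ 2) / R) ^ d ≤ 1 :=
      pow_le_one₀ (div_nonneg (Real.sqrt_nonneg _) hR.le) ((div_le_one hR).2 h3)
    rw [min_eq_right h4, div_pow] at h2
    calc WW τ q R / R ^ d * √(R ^ 2 - ‖z‖ ^ 2) ^ d
        = WW τ q R * (√(R ^ 2 - ‖z‖ ^ 2) ^ d / R ^ d) := by ring
      _ ≤ _ := h2
  -- upper bound
  have hupp : ∫ z in closedBall (0 : E j) R, WW τ p (√(R ^ 2 - ‖z‖ ^ 2)) ≤
      WW τ p r * ((1 - γ) * (R ^ j * om j) + γ * (I1 / r ^ d)) := by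
    have e : WW τ p r * ((1 - γ) * (R ^ j * om j) + γ * (I1 / r ^ d)) =
        ∫ z in closedBall (0 : E j) R,
          (WW τ p r * (1 - γ) * 1 + WW τ p r * γ / r ^ d * √(R ^ 2 - ‖z‖ ^ 2) ^ d) := by
      rw [integral_add (hint1.const_mul _) (hint.const_mul _), integral_const_mul,
        integral_const_mul, hI0, ← hI1]
      ring
    rw [e]
    refine setIntegral_mono_on ip ((hint1.const_mul _).add (hint.const_mul _))
      isClosed_closedBall.measurableSet ?_
    intro z _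
    have h2 := pu (√(R ^ 2 - ‖z‖ ^ 2)) (Real.sqrt_nonneg _)
    refine h2.trans (le_of_eq ?_)
    rw [div_pow]
    ring
  have hI0le : R ^ j * om j ≤ I1 / r ^ d := by
    rw [le_div_iff₀ hrd]
    have h5 : R ^ j * om j * r ^ d * om d ≤ I1 * om d := by
      rw [hI1e, pow_add]
      have h6 := mul_le_mul_of_nonneg_left hom (pow_nonneg hR.le j)
      calc R ^ j * om j * r ^ d * om d = R ^ j * (om d * om j * r ^ d) := by ring
        _ ≤ R ^ j * (om (d + j) * R ^ d) := h6
        _ = R ^ d * R ^ j * om (d + j) := by ring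
    exact le_of_mul_le_mul_right h5 hod
  have hγ1' : 0 ≤ 1 - γ := sub_nonneg.2 hγ1
  have hfin : WW τ q R / R ^ d * I1 ≤ WW τ p r / r ^ d * I1 := by
    calc WW τ q R / R ^ d * I1 ≤ _ := hlow
      _ ≤ _ := hA
      _ ≤ _ := hupp
      _ ≤ WW τ p r * ((1 - γ) * (I1 / r ^ d) + γ * (I1 / r ^ d)) := by
        refine mul_le_mul_of_nonneg_left ?_ hWp
        have := mul_le_mul_of_nonneg_left hI0le hγ1'
        linarith
      _ = _ := by ring
  have h7 := le_of_mul_le_mul_right hfin hI1pos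
  rwa [div_le_div_iff₀ hRd hrd] at h7

end Pool.Agent.H34.KN
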