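import Pool.Agent.H34.KN.Main

/-!
# Kneser's weighted inequality for strong contractions: the final form
-/

set_option autoImplicit false

open MeasureTheory Set Metric Real

namespace Pool.Agent.H34.KN

open Pool.Agent.H97.PK

theorem rank_le (d n : ℕ) (p q : Fin n → E d) :
    Module.finrank ℝ (vectorSpan ℝ (range fun i => (p i, q i))) ≤ 2 * d := by
  refine (Submodule.finrank_le _).trans ?_
  rw [Module.finrank_prod]
  simp
  omega

theorem gamma_half (d : ℕ) (hd : 3 ≤ d) :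
    (1 / 2 : ℝ) ^ d * Gamma d ≤ Gamma ((d : ℝ) / 2 + 1) * Gamma ((d : ℝ) / 2) := by
  have hd' : (3 : ℝ) ≤ d := by exact_mod_cast hd
  have h1 := Real.Gamma_mul_Gamma_add_half ((d : ℝ) / 2)
  have e1 : 2 * ((d : ℝ) / 2) = d := by ring
  rw [e1] at h1
  have hpow : (2 : ℝ) ^ (1 - (d : ℝ)) = 2 * (1 / 2 : ℝ) ^ d := by
    rw [Real.rpow_sub (by norm_num), Real.rpow_one, Real.rpow_natCast, div_eq_mul_inv, one_div,
      inv_pow]
  rw [hpow] at h1
  have g0 : 0 < Gamma ((d : ℝ) / 2) := Real.Gamma_pos_of_pos (by linarith)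
  have g1 : 0 < Gamma ((d : ℝ) / 2 + 1) := Real.Gamma_pos_of_pos (by linarith)
  have hmono : Gamma ((d : ℝ) / 2 + 1 / 2) ≤ Gamma ((d : ℝ) / 2 + 1) := by
    refine Real.Gamma_strictMonoOn_Ici.monotoneOn ?_ ?_ (by linarith)
    · rw [mem_Ici]
      linarith
    · rw [mem_Ici]
      linarith
  have hsq : (1 : ℝ) ≤ 2 * √π := by
    have : (1 : ℝ) ≤ √π := by
      rw [Real.one_le_sqrt]
      linarith [Real.pi_gt_three]
    linarith
  have hX : 0 ≤ (1 / 2 : ℝ) ^ d * Gamma d :=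
    mul_nonneg (by positivity) (Real.Gamma_pos_of_pos (by linarith)).le
  calc (1 / 2 : ℝ) ^ d * Gamma d ≤ (1 / 2 : ℝ) ^ d * Gamma d * (2 * √π) :=
        le_mul_of_one_le_right hX hsq
    _ = Gamma ((d : ℝ) / 2) * Gamma ((d : ℝ) / 2 + 1 / 2) := by rw [h1]; ring
    _ ≤ Gamma ((d : ℝ) / 2) * Gamma ((d : ℝ) / 2 + 1) := mul_le_mul_of_nonneg_left hmono g0.le
    _ = _ := by ring

/-- the final form -/
theorem strong_main (d n : ℕ) (p q : Fin n → E d) (r c : ℝ) (hr : 0 < r)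
    (hc : 0 < c) (hpq : ∀ i j, dist (q i) (q j) ≤ c * dist (p i) (p j))
    (h : c ≤ 1 / 2 ∨ (d = 3 ∧ c ≤ 0.838) ∨ ∃ j : ℕ,
      Module.finrank ℝ (vectorSpan ℝ (Set.range fun i => (p i, q i))) ≤ d + 2 + j ∧
      c ^ d * Real.Gamma (((d : ℝ) + j) / 2 + 1) ≤
        Real.Gamma ((d : ℝ) / 2 + 1) * Real.Gamma ((j : ℝ) / 2 + 1))
    (τ : Fin n → ℝ) (hτ : Antitone τ) : WW τ q r ≤ WW τ p r := by
  rcases Nat.eq_zero_or_pos d with rfl | hd
  · have e : q = p := by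
      funext i
      exact Subsingleton.elim _ _
    rw [e]
  rcases h with h | ⟨h3, h⟩ | ⟨j, hrank, hG⟩
  · by_cases h2 : d ≤ 2
    · refine Pool.Agent.H65k.kneser_main d n p q (fun _ => r) (fun _ => hr) (fun i j => ?_)
        (Or.inl h2) τ hτ
      refine (hpq i j).trans ?_
      have := dist_nonneg (x := p i) (y := p j)
      nlinarith
    · have h3 : 3 ≤ d := by omega
      obtain ⟨m, rfl⟩ : ∃ m, d = m + 2 := ⟨d - 2, by omega⟩
      refine strong_gamma (m + 2) m n hd p q r c hr hc hpq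
        ((rank_le (m + 2) n p q).trans (by omega)) ?_ τ hτ
      have hg := gamma_half (m + 2) h3
      have e1 : (((m + 2 : ℕ) : ℝ) + m) / 2 + 1 = ((m + 2 : ℕ) : ℝ) := by push_cast; ring
      have e2 : (m : ℝ) / 2 + 1 = ((m + 2 : ℕ) : ℝ) / 2 := by push_cast; ring
      rw [e1, e2]
      refine le_trans (mul_le_mul_of_nonneg_right (pow_le_pow_left₀ hc.le h _) ?_) hg
      exact (Real.Gamma_pos_of_pos (by positivity)).le
  · subst h3
    refine strong_gamma 3 1 n hd p q r c hr hc hpq ((rank_le 3 n p q).trans (by norm_num)) ?_ τ hτ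
    have e1 : (((3 : ℕ) : ℝ) + (1 : ℕ)) / 2 + 1 = 2 + 1 := by norm_num
    have e2 : Gamma (2 + 1 : ℝ) = 2 := by
      rw [Real.Gamma_add_one (by norm_num), Real.Gamma_two, mul_one]
    have e3 : Gamma (((1 : ℕ) : ℝ) / 2 + 1) = 1 / 2 * √π := by
      rw [Nat.cast_one, Real.Gamma_add_one (by norm_num), Real.Gamma_one_half_eq]
    have e4 : Gamma (((3 : ℕ) : ℝ) / 2 + 1) = 3 / 2 * (1 / 2 * √π) := by
      have e5 : ((3 : ℕ) : ℝ) / 2 = 1 / 2 + 1 := by norm_num
      rw [Real.Gamma_add_one (by norm_num), e5, Real.Gamma_add_one (by norm_num),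
        Real.Gamma_one_half_eq]
      norm_num
    rw [e1, e2, e3, e4]
    have hs : √π * √π = π := Real.mul_self_sqrt Real.pi_pos.le
    have hc3 : c ^ 3 ≤ (0.838 : ℝ) ^ 3 := pow_le_pow_left₀ hc.le h 3
    have hpi := Real.pi_gt_d2
    calc c ^ 3 * 2 ≤ (0.838 : ℝ) ^ 3 * 2 := by linarith
      _ ≤ 3 / 8 * π := by
        norm_num at hpi ⊢
        linarith
      _ = 3 / 8 * (√π * √π) := by rw [hs]
      _ = 3 / 2 * (1 / 2 * √π) * (1 / 2 * √π) := by ring
  · exact strong_gamma d j n hd p q r c hr hc hpq (hrank.trans (by omega)) hG τ hτ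

end Pool.Agent.H34.KN
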