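import Pool.Agent.H34.KN.Core

/-!
# Kneser's weighted inequality for strong contractions
-/

set_option autoImplicit false

open MeasureTheory Set Metric Real
open scoped ENNReal Pointwise

namespace Pool.Agent.H34.KN

open Pool.Agent.H97.PK

/-- scaling -/
theorem ww_scale (d n : ℕ) (τ : Fin n → ℝ) (q : Fin n → E d) (a r : ℝ) (ha : 0 < a) :
    WW τ (fun i => a • q i) (a * r) = a ^ d * WW τ q r := by
  unfold WW
  rw [Finset.mul_sum]
  refine Finset.sum_congr rfl fun k _ => ?_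
  have hset : {x : E d | k.val + 1 ≤
      (Finset.univ.filter (fun i => dist x (a • q i) ≤ a * r)).card} =
      a • {x : E d | k.val + 1 ≤ (Finset.univ.filter (fun i => dist x (q i) ≤ r)).card} := by
    ext x
    rw [Set.mem_smul_set_iff_inv_smul_mem₀ ha.ne']
    change k.val + 1 ≤ (Finset.univ.filter (fun i => dist x (a • q i) ≤ a * r)).card ↔
      k.val + 1 ≤ (Finset.univ.filter (fun i => dist (a⁻¹ • x) (q i) ≤ r)).card
    have hiff : ∀ i, dist x (a • q i) ≤ a * r ↔ dist (a⁻¹ • x) (q i) ≤ r := by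
      intro i
      have e : dist x (a • q i) = a * dist (a⁻¹ • x) (q i) := by
        have h1 : x = a • (a⁻¹ • x) := by rw [smul_smul, mul_inv_cancel₀ ha.ne', one_smul]
        conv_lhs => rw [h1]
        rw [dist_smul₀, Real.norm_of_nonneg ha.le]
      rw [e]
      exact mul_le_mul_iff_right₀ ha
    simp only [hiff]
  rw [hset, Measure.addHaar_smul, finrank_euclideanSpace_fin, ENNReal.toReal_mul,
    ENNReal.toReal_ofReal (abs_nonneg _), abs_of_pos (pow_pos ha d)]
  ring

/-- the total volume does not depend on the centres -/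
theorem ww_shift (d n : ℕ) (τ : Fin n → ℝ) (q : Fin n → E d) (r t : ℝ) :
    WW (fun k => τ k + t) q r = WW τ q r + t * ∑ _i : Fin n, (volume (closedBall (0 : E d) r)).toReal := by
  have h := Pool.Agent.H65k.sum_total (fun _ : Fin n => r) q
  have h2 : ∑ k : Fin n, (volume {x : E d | k.val + 1 ≤
      (Finset.univ.filter (fun i => dist x (q i) ≤ r)).card}).toReal =
      ∑ _i : Fin n, (volume (closedBall (0 : E d) r)).toReal := by
    rw [← h, Finset.sum_range]
    rfl
  unfold WW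
  rw [← h2, Finset.mul_sum, ← Finset.sum_add_distrib]
  refine Finset.sum_congr rfl fun k _ => ?_
  ring

/-- strong contractions, with the volumes of the unit balls -/
theorem strong_om (d j n : ℕ) (hd : 1 ≤ d) (p q : Fin n → E d) (r c : ℝ) (hr : 0 < r) (hc : 0 < c)
    (hpq : ∀ i k, dist (q i) (q k) ≤ c * dist (p i) (p k))
    (hrank : Module.finrank ℝ (vectorSpan ℝ (range fun i => (p i, q i))) ≤ d + j + 2)
    (hom : om d * om j * c ^ d ≤ om (d + j)) (τ : Fin n → ℝ) (hτ : Antitone τ) :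
    WW τ q r ≤ WW τ p r := by
  rcases Nat.eq_zero_or_pos n with rfl | hn
  · simp [WW]
  -- reduction to nonnegative weights
  obtain ⟨t, ht⟩ : ∃ t : ℝ, ∀ k, 0 ≤ τ k + t := by
    refine ⟨-τ ⟨n - 1, by omega⟩, fun k => ?_⟩
    have : τ ⟨n - 1, by omega⟩ ≤ τ k := hτ (Fin.le_def.2 (by simp; omega))
    linarith
  have hτ' : Antitone fun k => τ k + t := fun a b hab => by
    have := hτ hab
    dsimp only
    linarith
  suffices h : WW (fun k => τ k + t) q r ≤ WW (fun k => τ k + t) p r by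
    rw [ww_shift, ww_shift] at h
    linarith
  -- the expanded configuration
  have hci : 0 < c⁻¹ := inv_pos.2 hc
  have hcontr : Contr p (fun i => c⁻¹ • q i) := by
    intro i k
    dsimp only
    rw [dist_smul₀, Real.norm_of_nonneg hci.le, inv_mul_le_iff₀ hc]
    exact hpq i k
  have hrank' : Module.finrank ℝ (vectorSpan ℝ
      (range fun i => (emb j (p i), emb j (c⁻¹ • q i)))) ≤ d + j + 2 := by
    refine le_trans ?_ hrank
    set f : (E d × E d) →ₗ[ℝ] (E (d + j) × E (d + j)) :=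
      (Pool.Agent.H42.PK.embL d j).prodMap (c⁻¹ • Pool.Agent.H42.PK.embL d j) with hf
    have hsub : vectorSpan ℝ (range fun i => (emb j (p i), emb j (c⁻¹ • q i))) ≤
        (vectorSpan ℝ (range fun i => (p i, q i))).map f := by
      rw [vectorSpan_def, Submodule.span_le]
      rintro _ ⟨_, ⟨i, rfl⟩, _, ⟨k, rfl⟩, rfl⟩
      refine ⟨(p i, q i) - (p k, q k), vsub_mem_vectorSpan ℝ ⟨i, rfl⟩ ⟨k, rfl⟩, ?_⟩
      rw [map_sub]
      have hv : ∀ i, f (p i, q i) = (emb j (p i), emb j (c⁻¹ • q i)) := by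
        intro i
        rw [hf, LinearMap.prodMap_apply, LinearMap.smul_apply,
          ← Pool.Agent.H42.PK.embL_apply d j (c⁻¹ • q i), map_smul]
        rfl
      rw [hv, hv]
      rfl
    exact (Submodule.finrank_mono hsub).trans (Submodule.finrank_map_le f _)
  have hR : 0 < c⁻¹ * r := mul_pos hci hr
  have hom' : om d * om j * r ^ d ≤ om (d + j) * (c⁻¹ * r) ^ d := by
    have h1 : om d * om j ≤ om (d + j) * (c⁻¹) ^ d := by
      rw [inv_pow, ← div_eq_mul_inv, le_div_iff₀ (pow_pos hc d)]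
      exact hom
    calc om d * om j * r ^ d ≤ om (d + j) * (c⁻¹) ^ d * r ^ d :=
          mul_le_mul_of_nonneg_right h1 (pow_nonneg hr.le d)
      _ = _ := by ring
  have h := core d j n hd p (fun i => c⁻¹ • q i) hcontr hrank' r (c⁻¹ * r) hr hR hom'
    (fun k => τ k + t) hτ' ht
  rw [ww_scale d n _ q c⁻¹ r hci] at h
  have hpos : 0 < (c⁻¹) ^ d * r ^ d := mul_pos (pow_pos hci d) (pow_pos hr d)
  have e1 : (c⁻¹) ^ d * WW (fun k => τ k + t) q r * r ^ d =
      WW (fun k => τ k + t) q r * ((c⁻¹) ^ d * r ^ d) := by ring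
  have e2 : WW (fun k => τ k + t) p r * (c⁻¹ * r) ^ d =
      WW (fun k => τ k + t) p r * ((c⁻¹) ^ d * r ^ d) := by ring
  rw [e1, e2] at h
  exact le_of_mul_le_mul_right h hpos

/-- the volume of the unit ball -/
theorem om_eq (k : ℕ) : om k = √π ^ k / Gamma ((k : ℝ) / 2 + 1) := by
  unfold om
  rcases Nat.eq_zero_or_pos k with rfl | hk
  · have h1 : ball (0 : E 0) 1 = univ := by
      ext x
      have : x = 0 := Subsingleton.elim _ _
      simp [this]
    rw [h1, volume_euclideanSpace_eq_dirac]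
    simp
  · have : Nonempty (Fin k) := ⟨⟨0, hk⟩⟩
    rw [EuclideanSpace.volume_ball, Fintype.card_fin, ENNReal.ofReal_one, one_pow, one_mul,
      ENNReal.toReal_ofReal]
    exact div_nonneg (pow_nonneg (Real.sqrt_nonneg _) _)
      (Real.Gamma_pos_of_pos (by positivity)).le

theorem strong_gamma (d j n : ℕ) (hd : 1 ≤ d) (p q : Fin n → E d) (r c : ℝ) (hr : 0 < r)
    (hc : 0 < c) (hpq : ∀ i k, dist (q i) (q k) ≤ c * dist (p i) (p k))
    (hrank : Module.finrank ℝ (vectorSpan ℝ (range fun i => (p i, q i))) ≤ d + j + 2)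
    (hG : c ^ d * Gamma (((d : ℝ) + j) / 2 + 1) ≤ Gamma ((d : ℝ) / 2 + 1) * Gamma ((j : ℝ) / 2 + 1))
    (τ : Fin n → ℝ) (hτ : Antitone τ) : WW τ q r ≤ WW τ p r := by
  refine strong_om d j n hd p q r c hr hc hpq hrank ?_ τ hτ
  rw [om_eq, om_eq, om_eq]
  have g1 : 0 < Gamma ((d : ℝ) / 2 + 1) := Real.Gamma_pos_of_pos (by positivity)
  have g2 : 0 < Gamma ((j : ℝ) / 2 + 1) := Real.Gamma_pos_of_pos (by positivity)
  have g3 : 0 < Gamma (((d : ℝ) + j) / 2 + 1) := Real.Gamma_pos_of_pos (by positivity)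
  have hs : 0 < √π := Real.sqrt_pos.2 Real.pi_pos
  have ecast : (((d + j : ℕ) : ℝ)) / 2 + 1 = ((d : ℝ) + j) / 2 + 1 := by push_cast; ring
  rw [ecast, le_div_iff₀ g3]
  have e : √π ^ d / Gamma ((d : ℝ) / 2 + 1) * (√π ^ j / Gamma ((j : ℝ) / 2 + 1)) * c ^ d *
      Gamma (((d : ℝ) + j) / 2 + 1) = √π ^ (d + j) * (c ^ d * Gamma (((d : ℝ) + j) / 2 + 1)) /
      (Gamma ((d : ℝ) / 2 + 1) * Gamma ((j : ℝ) / 2 + 1)) := by
    field_simp
    ring
  rw [e, div_le_iff₀ (mul_pos g1 g2)]
  exact mul_le_mul_of_nonneg_left hG (pow_nonneg hs.le _)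

end Pool.Agent.H34.KN
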