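import Pool.Agent.H88.KN.Targets

/-!
MP_b5bf4a_co, dense range: module RD (reversal of the ranks), helper34.
-/

namespace Pool.Agent.H34.KN

open Finset Pool.Agent.H66.GG Pool.Agent.H88.KN

theorem pf_RD : T_RD := by
  classical
  intro V _ _ x y G s s' hC v
  have key : ∀ z, z ≠ v →
      ((x z + s * y z < x v + s * y v ↔ y v < y z) ∧
        (x z + s' * y z < x v + s' * y v ↔ y z < y v)) := by
    intro z hz
    have hy : y v ≠ y z := fun e => hz (G.inj e).symm
    obtain ⟨h1, h2⟩ := hC (slp x y v z) ⟨v, z, hz.symm, rfl⟩
    rw [lt_iff_slp hy, lt_iff_slp hy]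
    constructor
    · constructor
      · rintro (⟨h, _⟩ | ⟨_, h⟩)
        · exact h
        · exact absurd h (not_lt.2 h1.le)
      · intro h
        exact Or.inl ⟨h, h1⟩
    · constructor
      · rintro (⟨_, h⟩ | ⟨h, _⟩)
        · exact absurd h (not_lt.2 h2.le)
        · exact h
      · intro h
        exact Or.inr ⟨h, h2⟩
  have e1 : rk x y s v = ((univ.erase v).filter (fun z => y v < y z)).card := by
    unfold rk
    congr 1
    ext z
    simp only [mem_filter, mem_univ, true_and, mem_erase, and_true]
    constructor
    · intro h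
      have hz : z ≠ v := by
        rintro rfl
        exact lt_irrefl _ h
      exact ⟨hz, (key z hz).1.1 h⟩
    · rintro ⟨hz, h⟩
      exact (key z hz).1.2 h
  have e2 : rk x y s' v = ((univ.erase v).filter (fun z => ¬ y v < y z)).card := by
    unfold rk
    congr 1
    ext z
    simp only [mem_filter, mem_univ, true_and, mem_erase, and_true]
    constructor
    · intro h
      have hz : z ≠ v := by
        rintro rfl
        exact lt_irrefl _ h
      exact ⟨hz, not_lt.2 ((key z hz).2.1 h).le⟩
    · rintro ⟨hz, h⟩
      have hy : y v ≠ y z := fun e => hz (G.inj e).symm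
      exact (key z hz).2.2 (lt_of_le_of_ne (not_lt.1 h) hy.symm)
  rw [e1, e2, Finset.card_filter_add_card_filter_not, Finset.card_erase_of_mem (mem_univ v)]
  have : 0 < Fintype.card V := Fintype.card_pos_iff.2 ⟨v⟩
  rw [Finset.card_univ]
  omega

end Pool.Agent.H34.KN
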